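import Pool.Agent.Lib_MP_752436_ts.Cap
import Pool.Agent.Lib_MP_752436_ts.SardNull

/-!
A given point is neither a double point nor a singular point of almost all projections.
-/

open MeasureTheory Metric Set Filter Module
open scoped ContDiff Topology

namespace Pool.Agent.Lib_MP_752436_dm

open Pool.Agent.Lib_MP_752436_gt Pool.Agent.Lib_MP_752436_tp Pool.Agent.Lib_MP_752436_rb
  Pool.Agent.Lib_MP_752436_ts

theorem ae_point {F : Plane → EuclideanSpace ℝ (Fin 4)} (hF : IsSliceDisc F) {p : Plane}
    (hp : p ∈ closedBall (0 : Plane) 1) :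
    ∀ᵐ a : Space, Function.Injective (fderiv ℝ (proj F a) p) ∧
      ∀ y ∈ closedBall (0 : Plane) 1, y ≠ p → proj F a p ≠ proj F a y := by
  have h1 : ∀ᵐ a : Space, ∀ y ∈ closedBall (0 : Plane) 1, y ≠ p → proj F a p ≠ proj F a y := by
    have h0 : volume ((fun y : Plane => pm F (p, y)) '' {y | F p 3 ≠ F y 3}) = 0 := by
      refine null_of_finrank_lt volume (by simp) (isOpen_ne_fun continuous_const
        (contDiff_height_ts hF.smooth).continuous) fun y hy => ContDiffAt.contDiffWithinAt ?_
      have h2 := contDiffAt_pm hF.smooth (p := (p, y)) hy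
      have h3 : ContDiffAt ℝ ∞ (fun y : Plane => (p, y)) y :=
        (contDiff_const.prodMk contDiff_id).contDiffAt
      exact (h2.comp y h3).of_le (by simp)
    rw [ae_iff]
    refine measure_mono_null ?_ h0
    intro a ha
    simp only [mem_ofPred_eq, not_forall, not_not] at ha
    obtain ⟨y, hy, hyp, h⟩ := ha
    have h2 := height_ne_of_proj hF hp hy (Ne.symm hyp) h
    exact ⟨y, h2, (proj_eq_iff h2).1 h⟩
  have h2 : ∀ᵐ a : Space, Function.Injective (fderiv ℝ (proj F a) p) := by
    by_cases hg : gradH F p = 0
    · refine Eventually.of_forall fun a => ?_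
      rw [injective_iff_map_eq_zero]
      intro u hu
      by_contra hne
      exact (exists_kerVec hF hp hne hu).1 hg
    · have h0 : volume ((fun r : ℝ => capMap F (p, r)) '' univ) = 0 := by
        refine null_of_finrank_lt volume (by simp) isOpen_univ
          fun r _ => ContDiffAt.contDiffWithinAt ?_
        have h2 := contDiffAt_capMap hF.smooth (q := (p, r)) hg
        have h3 : ContDiffAt ℝ ∞ (fun r : ℝ => (p, r)) r :=
          (contDiff_const.prodMk contDiff_id).contDiffAt
        exact (h2.comp r h3).of_le (by simp)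
      rw [ae_iff]
      refine measure_mono_null ?_ h0
      intro a ha
      simp only [mem_ofPred_eq] at ha
      rw [injective_iff_map_eq_zero] at ha
      push Not at ha
      obtain ⟨u, hu, hne⟩ := ha
      obtain ⟨-, r, -, -, -, h⟩ := exists_kerVec hF hp hne hu
      exact ⟨r, mem_univ r, h⟩
  filter_upwards [h1, h2] with a h3 h4
  exact ⟨h4, h3⟩

end Pool.Agent.Lib_MP_752436_dm
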