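import Pool.Agent.Lib_MP_752436_ts.Lift
import Pool.Agent.Lib_MP_752436_gt.Shear
import Pool.Agent.Lib_MP_752436_gt.Criterion

/-!
Isotopies of slice discs rel boundary: finite chains of straight line homotopies.
-/

open Metric Set Filter
open scoped ContDiff Topology

namespace Pool.Agent.Lib_MP_752436_dm

open Pool.Agent.Lib_MP_752436_gt Pool.Agent.Lib_MP_752436_tp Pool.Agent.Lib_MP_752436_rb
  Pool.Agent.Lib_MP_752436_ts

/-- The straight line homotopy from `F` to `G` fixes the boundary and consists of slice discs. -/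
def LineStep (F G : Plane → EuclideanSpace ℝ (Fin 4)) : Prop :=
  (∀ x ∈ sphere (0 : Plane) 1, G x = F x) ∧
    ∀ s ∈ Icc (0 : ℝ) 1, IsSliceDisc (fun x => (1 - s) • F x + s • G x)

/-- `F` and `G` are joined by a finite chain of straight line homotopies which fix the boundary and
consist of slice discs. -/
def IsotopicRel (F G : Plane → EuclideanSpace ℝ (Fin 4)) : Prop :=
  Relation.ReflTransGen LineStep F G

theorem LineStep.isotopic {F G : Plane → EuclideanSpace ℝ (Fin 4)} (h : LineStep F G) :
    IsotopicRel F G := Relation.ReflTransGen.single h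

theorem IsotopicRel.trans {F G H : Plane → EuclideanSpace ℝ (Fin 4)} (h : IsotopicRel F G)
    (h' : IsotopicRel G H) : IsotopicRel F H := Relation.ReflTransGen.trans h h'

theorem IsotopicRel.sphere_eq {F G : Plane → EuclideanSpace ℝ (Fin 4)} (h : IsotopicRel F G) :
    ∀ x ∈ sphere (0 : Plane) 1, G x = F x := by
  induction h with
  | refl => exact fun x _ => rfl
  | tail _ h1 h2 => exact fun x hx => (h1.1 x hx).trans (h2 x hx)

theorem IsotopicRel.boundaryKnot_eq {F G : Plane → EuclideanSpace ℝ (Fin 4)}
    (h : IsotopicRel F G) : boundaryKnot G = boundaryKnot F := by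
  unfold boundaryKnot
  refine image_congr fun x hx => ?_
  unfold shadow
  rw [h.sphere_eq x hx]

/-- The shear. -/
theorem lineStep_shear {F : Plane → EuclideanSpace ℝ (Fin 4)} (hF : IsSliceDisc F)
    {a : EuclideanSpace ℝ (Fin 4)} (ha : a 3 = 0) :
    LineStep F (fun x => shearMap a (F x)) := by
  refine ⟨fun x hx => ?_, fun s _ => ?_⟩
  · simp only [shearMap_apply, hF.boundary x hx, zero_smul, add_zero]
  · have h2 := isSliceDisc_shear hF (a := s • a) (by simp [ha])
    have h3 : (fun x => (1 - s) • F x + s • shearMap a (F x)) =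
        fun x => shearMap (s • a) (F x) := by
      funext x
      rw [shearMap_apply, shearMap_apply, smul_add, smul_smul, smul_smul, mul_comm (F x 3) s,
        ← add_assoc, ← add_smul]
      simp
    rw [h3]
    exact h2

/-- The end of a chain is a slice disc. -/
theorem IsotopicRel.isSliceDisc {F G : Plane → EuclideanSpace ℝ (Fin 4)} (h : IsotopicRel F G)
    (hF : IsSliceDisc F) : IsSliceDisc G := by
  induction h with
  | refl => exact hF
  | tail _ h1 _ =>
    have h2 := h1.2 1 ⟨zero_le_one, le_rfl⟩
    simpa using h2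

/-- A change of the height which preserves the order of the points with the same projection. -/
theorem lineStep_height {m : Plane → Space} {z z' : Plane → ℝ} (hE : Emb m z)
    (hz' : ContDiff ℝ ∞ z')
    (h1 : ∀ x ∈ closedBall (0 : Plane) 1, ∀ y ∈ closedBall (0 : Plane) 1,
      m x = m y → z y < z x → z' y < z' x)
    (h2 : ∀ x ∈ closedBall (0 : Plane) 1, ∀ u, fderiv ℝ m x u = 0 →
      0 < fderiv ℝ z x u → 0 < fderiv ℝ z' x u)
    (hs : ∀ x ∈ sphere (0 : Plane) 1, z x = 0) (hs' : ∀ x ∈ sphere (0 : Plane) 1, z' x = 0)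
    (hb : ∀ x ∈ ball (0 : Plane) 1, 0 < z x) (hb' : ∀ x ∈ ball (0 : Plane) 1, 0 < z' x) :
    LineStep (liftDisc m z) (liftDisc m z') := by
  refine ⟨fun x hx => ?_, fun s hs01 => ?_⟩
  · unfold liftDisc
    rw [hs x hx, hs' x hx]
  · have hcomb : (fun x => (1 - s) • liftDisc m z x + s • liftDisc m z' x) =
        liftDisc m (fun x => (1 - s) * z x + s * z' x) := by
      funext x
      ext i
      fin_cases i
      · show (1 - s) * m x 0 + s * m x 0 = m x 0
        ring
      · show (1 - s) * m x 1 + s * m x 1 = m x 1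
        ring
      · show (1 - s) * m x 2 + s * m x 2 = m x 2
        ring
      · rfl
    rw [hcomb]
    have hzs := hE.smz
    have hws : ContDiff ℝ ∞ fun x => (1 - s) * z x + s * z' x :=
      (contDiff_const.mul hzs).add (contDiff_const.mul hz')
    have h0 : 0 ≤ s := hs01.1
    have h1s : 0 ≤ 1 - s := sub_nonneg.2 hs01.2
    have key : ∀ a b : ℝ, 0 < a → 0 < b → 0 < (1 - s) * a + s * b := by
      intro a b ha hb
      rcases h0.eq_or_lt with h | h
      · rw [← h]; simpa using ha
      · have := mul_pos h hb
        have := mul_nonneg h1s ha.le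
        linarith
    refine isSliceDisc_liftDisc (hE.of_rising hws ?_ ?_) ?_ ?_
    · intro x hx y hy hm hlt
      have h3 := h1 x hx y hy hm hlt
      have h4 := key (z x - z y) (z' x - z' y) (by linarith) (by linarith)
      have h5 : (1 - s) * (z x - z y) + s * (z' x - z' y) =
        ((1 - s) * z x + s * z' x) - ((1 - s) * z y + s * z' y) := by ring
      linarith
    · intro x hx u hu hzu
      have e1 : HasFDerivAt z (fderiv ℝ z x) x := ((hzs.differentiable (by simp)) x).hasFDerivAt
      have e2 : HasFDerivAt z' (fderiv ℝ z' x) x := ((hz'.differentiable (by simp)) x).hasFDerivAt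
      have e3 := (e1.const_mul (1 - s)).add (e2.const_mul s)
      have e4 : fderiv ℝ (fun x => (1 - s) * z x + s * z' x) x =
        (1 - s) • fderiv ℝ z x + s • fderiv ℝ z' x := e3.fderiv
      rw [e4]
      simp only [add_apply, smul_apply, smul_eq_mul]
      exact key _ _ hzu (h2 x hx u hu hzu)
    · intro x hx
      show (1 - s) * z x + s * z' x = 0
      rw [hs x hx, hs' x hx]
      ring
    · intro x hx
      exact key _ _ (hb x hx) (hb' x hx)

end Pool.Agent.Lib_MP_752436_dm
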