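import Pool.Agent.Lib_MP_752436_dm.Stab
import Pool.Agent.Lib_MP_752436_mv.Main

/-!
The number of births of a slice disc is at most the number of interior local minima of almost every
linear function on the disc.
-/

open MeasureTheory Metric Set Filter
open scoped ContDiff Topology ENNReal Pointwise

namespace Pool.Agent.Lib_MP_752436_dm

open Pool.Agent.Lib_MP_752436_gt Pool.Agent.Lib_MP_752436_tp Pool.Agent.Lib_MP_752436_rb
  Pool.Agent.Lib_MP_752436_nb Pool.Agent.Lib_MP_752436_rc Pool.Agent.Lib_MP_752436_mv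

variable {F : Plane → EuclideanSpace ℝ (Fin 4)}

theorem smul_mem_badSet {s : Set Plane} {v : EuclideanSpace ℝ (Fin 4)} {c : ℝ} (hc : 0 ≤ c)
    (h : v ∈ badSet F s) : c • v ∈ badSet F s := by
  obtain ⟨x, hx, h1, h2⟩ := h
  refine ⟨x, hx, fun u => ?_, fun u => ?_⟩
  · rw [inner_smul_left, h1 u, mul_zero]
  · rw [inner_smul_left]
    exact mul_nonneg (by simpa using hc) (h2 u)

theorem volume_badSet_sphere (hF : IsSliceDisc F) :
    volume (badSet F (sphere (0 : Plane) 1)) = 0 := by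
  have h0 : volume (badSet F (sphere (0 : Plane) 1) ∩ ball 0 1) = 0 := by
    have h1 := badSet_le hF.smooth (O := sphere (0 : Plane) 1)
      isClosed_sphere.measurableSet
      (fun x hx => gdet_pos (hF.immersion x (sphere_subset_closedBall hx)))
    have h2 : volume (sphere (0 : Plane) 1) = 0 := Measure.addHaar_sphere _ _ _
    rw [setLIntegral_measure_zero _ _ h2] at h1
    exact le_antisymm h1 zero_le
  have hsub : badSet F (sphere (0 : Plane) 1) ⊆
      ⋃ n : ℕ, ((n : ℝ) + 1) • (badSet F (sphere (0 : Plane) 1) ∩ ball 0 1) := by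
    intro v hv
    obtain ⟨n, hn⟩ := exists_nat_gt ‖v‖
    have hn1 : (0 : ℝ) < (n : ℝ) + 1 := by positivity
    rw [mem_iUnion]
    refine ⟨n, ?_⟩
    rw [mem_smul_set]
    refine ⟨((n : ℝ) + 1)⁻¹ • v, ⟨smul_mem_badSet (by positivity) hv, ?_⟩, ?_⟩
    · rw [mem_ball_zero_iff, norm_smul, norm_inv, Real.norm_of_nonneg hn1.le,
        inv_mul_lt_iff₀ hn1]
      linarith
    · rw [smul_smul, mul_inv_cancel₀ hn1.ne', one_smul]
  refine measure_mono_null hsub (measure_iUnion_null fun n => ?_)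
  rw [Measure.addHaar_smul, h0, mul_zero]

/-- Almost every linear function on the disc has only nondegenerate bad points, and none of them is
on the boundary. -/
theorem ae_good (hF : IsSliceDisc F) : ∀ᵐ v : EuclideanSpace ℝ (Fin 4), horiz v ≠ 0 ∧
    ∀ x ∈ closedBall (0 : Plane) 1, v ∈ badSet F {x} → x ∈ ball (0 : Plane) 1 ∧
      ∀ u, u ≠ 0 → 0 < (inner ℝ v (fderiv ℝ (fderiv ℝ F) x u u) : ℝ) := by
  have h1 : ∀ᵐ v : EuclideanSpace ℝ (Fin 4), horiz v ≠ 0 := by
    rw [ae_iff]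
    simpa using volume_vertical
  have h2 : ∀ᵐ v : EuclideanSpace ℝ (Fin 4), v ∉ degSet F (closedBall (0 : Plane) 1) :=
    measure_eq_zero_iff_ae_notMem.1
      (volume_degSet hF.smooth fun x hx => gdet_pos (hF.immersion x hx))
  have h3 : ∀ᵐ v : EuclideanSpace ℝ (Fin 4), v ∉ badSet F (sphere (0 : Plane) 1) :=
    measure_eq_zero_iff_ae_notMem.1 (volume_badSet_sphere hF)
  filter_upwards [h1, h2, h3] with v a b c
  refine ⟨a, fun x hx hbad => ⟨?_, pos_def_of_psd hF.smooth hx hbad b⟩⟩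
  rcases ball_or_sphere hx with h | h
  · exact h
  · exfalso
    apply c
    obtain ⟨y, hy, h1, h2⟩ := hbad
    rw [mem_singleton_iff] at hy
    subst hy
    exact ⟨y, h, h1, h2⟩

/-- `G` is obtained from `F` by an isotopy through slice discs with the same boundary: first the
shear `F + s F_3 a`, then a straight line homotopy which changes the height only. -/
def ShearIsotopic (F G : Plane → EuclideanSpace ℝ (Fin 4)) : Prop :=
  ∃ a : EuclideanSpace ℝ (Fin 4), a 3 = 0 ∧
    (∀ x ∈ sphere (0 : Plane) 1, G x = F x) ∧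
    (∀ x, ∀ i, i ≠ 3 → G x i = F x i + F x 3 * a i) ∧
    (∀ s ∈ Icc (0 : ℝ) 1, IsSliceDisc (fun x => F x + (s * F x 3) • a)) ∧
    ∀ s ∈ Icc (0 : ℝ) 1, IsSliceDisc (fun x => (1 - s) • (F x + F x 3 • a) + s • G x)

theorem shearIsotopic_of (hF : IsSliceDisc F) {G : Plane → EuclideanSpace ℝ (Fin 4)}
    (hG : IsSliceDisc G) {a : EuclideanSpace ℝ (Fin 4)} (ha : a 3 = 0)
    (h : ∀ x, ∀ i, i ≠ 3 → G x i = (F x + F x 3 • a) i)
    (hs : ∀ s ∈ Icc (0 : ℝ) 1, IsSliceDisc (fun x => (1 - s) • (F x + F x 3 • a) + s • G x)) :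
    ShearIsotopic F G := by
  refine ⟨a, ha, ?_, ?_, ?_, hs⟩
  · intro x hx
    have h0 := hF.boundary x hx
    have h1 := hG.boundary x hx
    ext i
    by_cases hi : i = 3
    · rw [hi, h0, h1]
    · rw [h x i hi, h0]
      simp
  · intro x i hi
    rw [h x i hi]
    simp
  · intro s _
    have h2 := isSliceDisc_shear hF (a := s • a) (by simp [ha])
    have h3 : (fun x => F x + (s * F x 3) • a) = fun x => shearMap (s • a) (F x) := by
      funext x
      rw [shearMap_apply, smul_smul, mul_comm (F x 3) s]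
    rw [h3]
    exact h2

theorem ShearIsotopic.boundaryKnot_eq {G : Plane → EuclideanSpace ℝ (Fin 4)}
    (h : ShearIsotopic F G) : boundaryKnot G = boundaryKnot F := by
  obtain ⟨a, -, h1, -⟩ := h
  unfold boundaryKnot
  refine image_congr fun x hx => ?_
  unfold shadow
  rw [h1 x hx]

/-- Few nondegenerate bad points in a direction which is not vertical. -/
theorem births_of_few (hF : IsSliceDisc F) {v : EuclideanSpace ℝ (Fin 4)} (hv : horiz v ≠ 0)
    {n : ℕ} (hfew : {x | x ∈ closedBall (0 : Plane) 1 ∧ v ∈ badSet F {x}}.encard ≤ n)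
    (hnd : ∀ x ∈ closedBall (0 : Plane) 1, v ∈ badSet F {x} → x ∈ ball (0 : Plane) 1 ∧
      ∀ u, u ≠ 0 → 0 < (inner ℝ v (fderiv ℝ (fderiv ℝ F) x u u) : ℝ)) :
    ∃ G, MorseDisc G ∧ (births G).encard ≤ n ∧ ShearIsotopic F G := by
  obtain ⟨a, ha3, G, hG1, hG2, hG3, hG4⟩ := births_of_direction_shear hF hv hfew hnd
  exact ⟨G, hG1, hG2, shearIsotopic_of hF hG1.slice ha3 hG3 hG4⟩

/-- **Births are bounded by local minima.** For every slice disc and almost every linear
function. -/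
theorem ae_births_le (hF : IsSliceDisc F) : ∀ᵐ v : EuclideanSpace ℝ (Fin 4),
    ∃ G, MorseDisc G ∧ (births G).encard ≤ (localMinima F v).encard ∧ ShearIsotopic F G := by
  filter_upwards [ae_good hF] with v hv
  rcases eq_or_ne (localMinima F v).encard ⊤ with htop | htop
  · obtain ⟨a, ha3, G, hG1, -, -, hG3, hG4⟩ := willmore_births_shear hF
    exact ⟨G, hG1, by rw [htop]; exact le_top, shearIsotopic_of hF hG1.slice ha3 hG3 hG4⟩
  · obtain ⟨n, hn⟩ := ENat.ne_top_iff_exists.1 htop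
    rw [← hn]
    refine births_of_few hF hv.1 ?_ hv.2
    rw [hn]
    refine encard_le_encard fun x hx => ?_
    obtain ⟨h1, h2⟩ := hv.2 x hx.1 hx.2
    exact ⟨h1, localMin_of_bad hF.smooth hx.2 h2⟩

/-- The same for the functions close to a given function with nondegenerate bad points. -/
theorem births_le_of_stable (hF : IsSliceDisc F) {v₀ : EuclideanSpace ℝ (Fin 4)}
    (P : Finset Plane)
    (hP : ∀ p ∈ P, p ∈ ball (0 : Plane) 1 ∧
      ∀ u, u ≠ 0 → 0 < (inner ℝ v₀ (fderiv ℝ (fderiv ℝ F) p u u) : ℝ))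
    (hcrit : ∀ x ∈ closedBall (0 : Plane) 1, v₀ ∈ badSet F {x} → x ∈ P) :
    ∃ G, MorseDisc G ∧ (births G).encard ≤ P.card ∧ ShearIsotopic F G := by
  obtain ⟨δ, hδ, h⟩ := bad_stable hF P hP hcrit
  obtain ⟨v, hv1, hv2⟩ : ∃ v : EuclideanSpace ℝ (Fin 4), ‖v - v₀‖ < δ ∧ horiz v ≠ 0 := by
    by_contra hcon
    push Not at hcon
    have h1 : ball v₀ δ ⊆ {v : EuclideanSpace ℝ (Fin 4) | horiz v = 0} := by
      intro v hv
      exact hcon v (by rwa [mem_ball_iff_norm] at hv)
    have h2 : volume (ball v₀ δ) = 0 := measure_mono_null h1 volume_vertical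
    exact (measure_ball_pos volume v₀ hδ).ne' h2
  obtain ⟨h1, h2⟩ := h v hv1
  exact births_of_few hF hv2 h1 h2

/-- **Births are bounded by deaths.** -/
theorem births_le_deaths (hF : MorseDisc F) :
    ∃ G, MorseDisc G ∧ (births G).encard ≤ (deaths F).encard ∧ ShearIsotopic F G := by
  classical
  have hs := hF.slice.smooth
  have hz : ContDiff ℝ ∞ (fun y => F y 3) := contDiff_coord' hF.slice 3
  have hfin : (deaths F).Finite := by
    refine (finite_critical hF).subset fun x hx => ⟨ball_subset_closedBall hx.1, ?_⟩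
    exact hx.2.fderiv_eq_zero
  set v₀ : EuclideanSpace ℝ (Fin 4) := -EuclideanSpace.single 3 1 with hv₀
  have hlin : (fun y => (inner ℝ v₀ (F y) : ℝ)) = fun y => -(F y 3) := by
    funext y
    rw [hv₀, inner_neg_left, EuclideanSpace.inner_single_left]
    simp
  have hD : (fun y => (inner ℝ v₀ (F y) : ℝ)) = -(fun y => F y 3) := by
    rw [hlin]
    rfl
  have h1 : ∀ x, fderiv ℝ (fun y => (inner ℝ v₀ (F y) : ℝ)) x = -fderiv ℝ (fun y => F y 3) x := by
    intro x
    rw [hD, fderiv_neg]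
  have h2 : ∀ x u w, fderiv ℝ (fderiv ℝ (fun y => (inner ℝ v₀ (F y) : ℝ))) x u w
      = -fderiv ℝ (fderiv ℝ (fun y => F y 3)) x u w := by
    intro x u w
    have h3 : fderiv ℝ (fun y => (inner ℝ v₀ (F y) : ℝ)) = -fderiv ℝ (fun y => F y 3) :=
      funext h1
    rw [h3, fderiv_neg]
    rfl
  have hcs : ContDiff ℝ ∞ fun y => (inner ℝ v₀ (F y) : ℝ) := contDiff_lin hs v₀
  have hnd : ∀ x ∈ ball (0 : Plane) 1, fderiv ℝ (fun y => F y 3) x = 0 →
      ∀ u, u ≠ 0 → ∃ w, fderiv ℝ (fderiv ℝ (fun y => (inner ℝ v₀ (F y) : ℝ))) x u w ≠ 0 := by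
    intro x hx h0 u hu
    obtain ⟨w, hw⟩ := crit_nondeg hF hx h0 u hu
    exact ⟨w, by rw [h2]; exact neg_ne_zero.2 hw⟩
  have hP : ∀ p ∈ hfin.toFinset, p ∈ ball (0 : Plane) 1 ∧
      ∀ u, u ≠ 0 → 0 < (inner ℝ v₀ (fderiv ℝ (fderiv ℝ F) p u u) : ℝ) := by
    intro p hp
    rw [Finite.mem_toFinset] at hp
    refine ⟨hp.1, fun u hu => ?_⟩
    have h0 : fderiv ℝ (fun y => F y 3) p = 0 := hp.2.fderiv_eq_zero
    have hmin : IsLocalMin (fun y => (inner ℝ v₀ (F y) : ℝ)) p := by
      rw [hlin]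
      exact hp.2.neg
    rw [← kl_fderiv_two hs]
    exact crit_posDef hcs (hnd p hp.1 h0) (fun u => noTrap_second hcs hmin u) u hu
  have hC : ∀ x ∈ closedBall (0 : Plane) 1, v₀ ∈ badSet F {x} → x ∈ hfin.toFinset := by
    intro x hx hbad
    rw [Finite.mem_toFinset]
    rw [mem_badSet_singleton] at hbad
    have h0 : fderiv ℝ (fun y => F y 3) x = 0 := by
      have h3 : fderiv ℝ (fun y => (inner ℝ v₀ (F y) : ℝ)) x = 0 := by
        ext u
        rw [lin_fderiv_apply hs, hbad.1 u]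
        rfl
      rw [h1] at h3
      exact neg_eq_zero.1 h3
    have hxb := crit_mem_ball hF hx h0
    refine ⟨hxb, ?_⟩
    have hmin : IsLocalMin (fun y => (inner ℝ v₀ (F y) : ℝ)) x := by
      refine crit_localMin hcs ?_ (hnd x hxb h0) (fun u => ?_)
      · rw [h1, h0, neg_zero]
      · rw [kl_fderiv_two hs]
        exact hbad.2 u
    rw [hlin] at hmin
    have h5 : IsLocalMax (fun y => -(-(F y 3))) x := hmin.neg
    have h6 : (fun y => -(-(F y 3))) = height F := by
      funext y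
      rw [neg_neg]
      rfl
    rw [h6] at h5
    exact h5
  obtain ⟨G, hG1, hG2, hG3⟩ := births_le_of_stable hF.slice (v₀ := v₀) hfin.toFinset hP hC
  refine ⟨G, hG1, hG2.trans ?_, hG3⟩
  rw [← hfin.encard_eq_coe_toFinset_card]

/-- `K` bounds a slice disc `F` such that the vectors `v` for which `⟨v, F⟩` has at most `n` interior
local minima are not a null set. -/
def FewMinima (K : Set Space) (n : ℕ) : Prop :=
  ∃ F, IsSliceDisc F ∧ boundaryKnot F = K ∧
    ¬ ∀ᵐ v : EuclideanSpace ℝ (Fin 4), (n : ℕ∞) < (localMinima F v).encard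

/-- `K` bounds a Morse slice disc with at most `n` births. -/
def FewBirths (K : Set Space) (n : ℕ) : Prop :=
  ∃ G, MorseDisc G ∧ (births G).encard ≤ n ∧ boundaryKnot G = K

theorem fewBirths_of_fewMinima {K : Set Space} {n : ℕ} (h : FewMinima K n) : FewBirths K n := by
  obtain ⟨F, hF, rfl, h⟩ := h
  have h1 : ∃ᵐ v : EuclideanSpace ℝ (Fin 4), (localMinima F v).encard ≤ n := by
    simpa only [Filter.Frequently, not_le] using h
  obtain ⟨v, hv1, G, hG1, hG2, hG3⟩ := (h1.and_eventually (ae_births_le hF)).exists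
  exact ⟨G, hG1, hG2.trans hv1, hG3.boundaryKnot_eq⟩

theorem fewMinima_of_fewBirths {K : Set Space} {n : ℕ} (h : FewBirths K n) : FewMinima K n := by
  classical
  obtain ⟨F, hF, hb, hFK⟩ := h
  have hs := hF.slice.smooth
  have hfin : (births F).Finite := Set.finite_of_encard_le_coe hb
  set v₀ : EuclideanSpace ℝ (Fin 4) := EuclideanSpace.single 3 1 with hv₀
  have hlin : (fun y => (inner ℝ v₀ (F y) : ℝ)) = fun y => F y 3 := by
    funext y
    rw [hv₀, EuclideanSpace.inner_single_left]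
    simp
  have hcs : ContDiff ℝ ∞ fun y => (inner ℝ v₀ (F y) : ℝ) := contDiff_lin hs v₀
  have hP : ∀ p ∈ hfin.toFinset, p ∈ ball (0 : Plane) 1 ∧
      ∀ u, u ≠ 0 → 0 < (inner ℝ v₀ (fderiv ℝ (fderiv ℝ F) p u u) : ℝ) := by
    intro p hp
    rw [Finite.mem_toFinset] at hp
    refine ⟨hp.1, fun u hu => ?_⟩
    have h0 : fderiv ℝ (fun y => F y 3) p = 0 := IsLocalMin.fderiv_eq_zero hp.2
    rw [← kl_fderiv_two hs, hlin]
    exact crit_posDef (contDiff_coord' hF.slice 3) (crit_nondeg hF hp.1 h0)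
      (fun u => noTrap_second (contDiff_coord' hF.slice 3) hp.2 u) u hu
  have hC : ∀ x ∈ closedBall (0 : Plane) 1, v₀ ∈ badSet F {x} → x ∈ hfin.toFinset := by
    intro x hx hbad
    rw [Finite.mem_toFinset]
    rw [mem_badSet_singleton] at hbad
    have h0 : fderiv ℝ (fun y => F y 3) x = 0 := by
      rw [← hlin]
      ext u
      rw [lin_fderiv_apply hs, hbad.1 u]
      rfl
    have hxb := crit_mem_ball hF hx h0
    refine ⟨hxb, ?_⟩
    refine crit_localMin (contDiff_coord' hF.slice 3) h0 (crit_nondeg hF hxb h0) (fun u => ?_)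
    rw [← hlin, kl_fderiv_two hs]
    exact hbad.2 u
  obtain ⟨δ, hδ, hst⟩ := bad_stable hF.slice (v₀ := v₀) hfin.toFinset hP hC
  refine ⟨F, hF.slice, hFK, fun hae => ?_⟩
  have h1 : volume (ball v₀ δ) = 0 := by
    rw [measure_eq_zero_iff_ae_notMem]
    filter_upwards [hae] with v hv hvb
    obtain ⟨h2, -⟩ := hst v (by rwa [mem_ball_iff_norm] at hvb)
    refine absurd hv (not_lt.2 ?_)
    calc (localMinima F v).encard
        ≤ {x | x ∈ closedBall (0 : Plane) 1 ∧ v ∈ badSet F {x}}.encard :=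
          encard_le_encard fun x hx => ⟨ball_subset_closedBall hx.1, bad_of_localMin hs hx.2⟩
      _ ≤ hfin.toFinset.card := h2
      _ = (births F).encard := (hfin.encard_eq_coe_toFinset_card).symm
      _ ≤ n := hb
  exact (measure_ball_pos volume v₀ hδ).ne' h1

theorem fewBirths_iff_fewMinima (K : Set Space) (n : ℕ) : FewBirths K n ↔ FewMinima K n :=
  ⟨fewMinima_of_fewBirths, fewBirths_of_fewMinima⟩

theorem ribbon_iff_fewBirths (K : Set Space) : IsRibbonKnot K ↔ FewBirths K 0 := by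
  constructor
  · intro h
    obtain ⟨F, hF, hb, hFK⟩ := exists_noBirths_of_ribbon h
    exact ⟨F, hF, by rw [hb]; simp, hFK⟩
  · rintro ⟨G, hG, hb, rfl⟩
    refine isRibbonKnot_of_noBirths hG ?_
    rw [← Set.encard_eq_zero]
    exact le_antisymm (by simpa using hb) bot_le

end Pool.Agent.Lib_MP_752436_dm
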