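import Pool.Agent.Lib_MP_752436_ts.Reg

/-!
Traps contain local minima of the functions which do not decrease upwards.
-/

open Metric Set Filter
open scoped ContDiff Topology

namespace Pool.Agent.Lib_MP_752436_dm

open Pool.Agent.Lib_MP_752436_gt Pool.Agent.Lib_MP_752436_tp Pool.Agent.Lib_MP_752436_rb
  Pool.Agent.Lib_MP_752436_ts
open Pool.Agent.Lib_MP_752436_mv (cap_isolated)

/-- The singular points of a trap are interior points. -/
theorem singular_mem_interior {m : Plane → Space} {z : Plane → ℝ} (hE : Emb m z) (hg : Gen m)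
    {K Z : Set Plane} (hK : K ⊆ closedBall (0 : Plane) 1) (hZ : IsLTrap m z K Z) {x : Plane}
    (hx : x ∈ Z) (hs : ¬ Function.Injective (fderiv ℝ m x)) : x ∈ interior Z := by
  have hxD := hK (hZ.sub hx)
  have hsub : closure (interior Z) ⊆ Z :=
    closure_minimal interior_subset hZ.compact.isClosed
  have hint : interior Z ⊆ interior (closure (interior Z)) :=
    interior_maximal subset_closure isOpen_interior
  have hfr : frontier (closure (interior Z)) ⊆ frontier Z :=
    frontier_closure_subset.trans frontier_interior_subset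
  have hnf : x ∉ frontier (closure (interior Z)) :=
    cap_notMem_frontier hE hg hK hxD hs isClosed_closure (closure_mono hint) fun y hy hinj => by
      obtain ⟨w, -, hw⟩ := hZ.above y (hfr hy) hinj
      exact ⟨w, hw⟩
  by_cases hxc : x ∈ closure (interior Z)
  · have h1 : x ∈ interior (closure (interior Z)) := by
      by_contra hni
      exact hnf ⟨subset_closure hxc, hni⟩
    exact interior_mono hsub h1
  · exfalso
    obtain ⟨k, hk, hk0, -, hW⟩ := exists_kernel hE hg hxD hs
    obtain ⟨δ, hδ, hiso⟩ := cap_isolated hE.smm hk hk0 hW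
    -- a ball without interior points of `Z`
    obtain ⟨ρ, hρ, hρi⟩ : ∃ ρ > 0, ball x ρ ∩ interior Z = ∅ := by
      rw [Metric.mem_closure_iff] at hxc
      push Not at hxc
      obtain ⟨ρ, hρ, h⟩ := hxc
      refine ⟨ρ, hρ, ?_⟩
      rw [eq_empty_iff_forall_notMem]
      rintro y ⟨hy1, hy2⟩
      have h1 := h y hy2
      rw [mem_ball, dist_comm] at hy1
      linarith
    obtain ⟨U, hU, hUp⟩ := partner_near_cap hE hg hxD hs (lt_min hδ hρ)
    obtain ⟨ρ', hρ', hρU⟩ := Metric.mem_nhds_iff.1 hU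
    obtain ⟨q, ⟨hqZ, hqx⟩, hqd⟩ := Metric.mem_closure_iff.1 (hZ.cap x hx hs) ρ' hρ'
    have hqU : q ∈ U := hρU (by rw [mem_ball, dist_comm]; exact hqd)
    have hqx' : q ≠ x := hqx
    -- every partner of `q` in `Z` has a lower partner in `Z`
    have hstep : ∀ y ∈ Z, m q = m y → Function.Injective (fderiv ℝ m y) →
        ∃ w ∈ Z, (y, w) ∈ Over m z K := by
      intro y hy hm hinj
      have hyb := hUp q hqU y (hK (hZ.sub hy)) hm
      refine hZ.above y ⟨subset_closure hy, fun hyi => ?_⟩ hinj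
      have h2 : y ∈ ball x ρ ∩ interior Z := ⟨ball_subset_ball (min_le_right _ _) hyb, hyi⟩
      rw [hρi] at h2
      exact h2
    have hqinj : Function.Injective (fderiv ℝ m q) := by
      by_contra hcon
      exact hqx' (hiso q (ball_subset_ball (min_le_left _ _)
        (hUp q hqU q (hK (hZ.sub hqZ)) rfl)) hcon)
    obtain ⟨y1, hy1, h1⟩ := hstep q hqZ rfl hqinj
    obtain ⟨y2, hy2, h2⟩ := hstep y1 hy1 h1.2.2.1 (hg.inj_snd hK h1)
    obtain ⟨y3, hy3, h3⟩ := hstep y2 hy2 (h1.2.2.1.trans h2.2.2.1) (hg.inj_snd hK h2)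
    exact hg.noFour hK h1 h2 h3

/-- A trap contains an interior local minimum of every continuous function which does not
decrease from the lower to the upper points. -/
theorem exists_localMin_of_ltrap {m : Plane → Space} {z : Plane → ℝ} (hE : Emb m z) (hg : Gen m)
    {K Z : Set Plane} (hK : K ⊆ closedBall (0 : Plane) 1) (hZ : IsLTrap m z K Z) {w : Plane → ℝ}
    (hw : Continuous w)
    (hrise : ∀ x ∈ closedBall (0 : Plane) 1, ∀ y ∈ closedBall (0 : Plane) 1,
      m x = m y → z y < z x → w y ≤ w x) :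
    ∃ q ∈ Z, IsLocalMin w q := by
  obtain ⟨q₀, hq₀, hmin⟩ := hZ.compact.exists_isMinOn hZ.nonempty hw.continuousOn
  -- the minimal points
  have hMc : IsCompact {q | q ∈ Z ∧ w q ≤ w q₀} :=
    hZ.compact.inter_right (isClosed_le hw continuous_const)
  obtain ⟨q, ⟨hqZ, hqw⟩, hlow⟩ := hMc.exists_isMinOn ⟨q₀, hq₀, le_rfl⟩
    hE.smz.continuous.continuousOn
  refine ⟨q, hqZ, ?_⟩
  have hqi : q ∈ interior Z := by
    by_cases hs : Function.Injective (fderiv ℝ m q)
    · by_contra hni
      obtain ⟨y, hy, hqy⟩ := hZ.above q ⟨subset_closure hqZ, hni⟩ hs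
      have h1 := hrise q (hK (hZ.sub hqZ)) y (hK (hZ.sub hy)) hqy.2.2.1 hqy.2.2.2
      have h2 : z q ≤ z y := hlow ⟨hy, h1.trans hqw⟩
      exact absurd hqy.2.2.2 (not_lt.2 h2)
    · exact singular_mem_interior hE hg hK hZ hqZ hs
  filter_upwards [mem_interior_iff_mem_nhds.1 hqi] with y hy
  exact hqw.trans (hmin hy)

end Pool.Agent.Lib_MP_752436_dm
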