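import Pool.Agent.Lib_MP_752436_dm.Iso
import Pool.Agent.Lib_MP_752436_dm.Trap
import Pool.Agent.Lib_MP_752436_ts.Dual
import Pool.Agent.Lib_MP_752436_mv.Balls
import Pool.Agent.Lib_MP_752436_mv.Chi
import Pool.Agent.Lib_MP_752436_mv.Hybrid
import Pool.Agent.Lib_MP_752436_mv.Lower
import Pool.Agent.Lib_MP_752436_nb.Direction

/-!
Finitely many points which meet all traps bound the births (adapted from ts/Assembly.lean).
-/

open Metric Set Filter
open scoped ContDiff Topology

namespace Pool.Agent.Lib_MP_752436_dm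

open Pool.Agent.Lib_MP_752436_gt Pool.Agent.Lib_MP_752436_tp Pool.Agent.Lib_MP_752436_rb
  Pool.Agent.Lib_MP_752436_nb
open Pool.Agent.Lib_MP_752436_ts (Emb Gen Over IsLTrap isSliceDisc_liftDisc liftDisc
  exists_superharmonic_lift bottoms)
open Pool.Agent.Lib_MP_752436_mv (exists_strip exists_chi hybrid_lap_neg hybrid_below
  exists_lowering_local)

theorem neg_direction_of_lap_dm {h : Plane → ℝ} {x : Plane} (hl : lap h x < 0) :
    ∃ u, fderiv ℝ (fderiv ℝ h) x u u < 0 := by
  unfold lap at hl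
  by_contra hcon
  push Not at hcon
  have e0 := hcon (EuclideanSpace.single 0 1)
  have e1 := hcon (EuclideanSpace.single 1 1)
  linarith

theorem fderiv_three_nonneg_dm (p : EuclideanSpace ℝ (Fin 4)) :
    0 ≤ fderiv ℝ (fun q : EuclideanSpace ℝ (Fin 4) => q 3) p (EuclideanSpace.single 3 1) := by
  have h : HasFDerivAt (fun q : EuclideanSpace ℝ (Fin 4) => q 3)
      (EuclideanSpace.proj (3 : Fin 4) : EuclideanSpace ℝ (Fin 4) →L[ℝ] ℝ) p :=
    (EuclideanSpace.proj (3 : Fin 4) : EuclideanSpace ℝ (Fin 4) →L[ℝ] ℝ).hasFDerivAt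
  rw [h.fderiv]
  simp

/-- Small balls around finitely many points which are neither upper points nor singular points. -/
theorem exists_freeRadius {m : Plane → Space} {z : Plane → ℝ} (hE : Emb m z)
    (P : Finset Plane) (hPi : ∀ p ∈ P, Function.Injective (fderiv ℝ m p))
    (hPu : ∀ p ∈ P, ∀ y, (p, y) ∉ Over m z (closedBall (0 : Plane) 1)) {U : Set Plane}
    (hU : IsOpen U) (hPU : ∀ p ∈ P, p ∈ U) :
    ∃ r > 0, (∀ p ∈ P, ∀ x ∈ closedBall p r, x ∈ U ∧ Function.Injective (fderiv ℝ m x) ∧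
      ∀ y, (x, y) ∉ Over m z (closedBall (0 : Plane) 1)) ∧
      ∀ p ∈ P, ∀ q ∈ P, p ≠ q → 2 * r < dist p q := by
  have hmc : Continuous m := hE.smm.continuous
  have hzc : Continuous z := hE.smz.continuous
  set C : Set (Plane × Plane) := closure (Over m z (closedBall (0 : Plane) 1)) with hC
  have hcl : C ⊆ {c : Plane × Plane | (c.1 ∈ closedBall (0 : Plane) 1 ∧
      c.2 ∈ closedBall (0 : Plane) 1) ∧ (m c.1 = m c.2 ∧ z c.2 ≤ z c.1)} := by
    refine closure_minimal (fun c hc => ⟨⟨hc.1, hc.2.1⟩, hc.2.2.1, hc.2.2.2.le⟩) ?_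
    exact ((isClosed_closedBall.preimage continuous_fst).inter
      (isClosed_closedBall.preimage continuous_snd)).inter
      ((isClosed_eq (hmc.comp continuous_fst) (hmc.comp continuous_snd)).inter
      (isClosed_le (hzc.comp continuous_snd) (hzc.comp continuous_fst)))
  have hCc : IsCompact C :=
    ((isCompact_closedBall (0 : Plane) 1).prod (isCompact_closedBall (0 : Plane) 1)).of_isClosed_subset
      isClosed_closure (fun c hc => ⟨(hcl hc).1.1, (hcl hc).1.2⟩)
  set W : Set Plane := U ∩ ({x | Function.Injective (fderiv ℝ m x)} ∩ (Prod.fst '' C)ᶜ) with hW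
  have hinj : IsOpen {x | Function.Injective (fderiv ℝ m x)} :=
    (ContinuousLinearMap.isOpen_injective (𝕜 := ℝ) (E := Plane) (F := Space)).preimage
      (hE.smm.continuous_fderiv (by simp))
  have hWo : IsOpen W :=
    hU.inter (hinj.inter (hCc.image continuous_fst).isClosed.isOpen_compl)
  have hPW : ∀ p ∈ P, p ∈ W := by
    intro p hp
    have hip := hPi p hp
    refine ⟨hPU p hp, hip, ?_⟩
    rintro ⟨c, hc, hcp⟩
    obtain ⟨⟨c1, c2⟩, c4, c5⟩ := hcl hc
    by_cases hcc : c.1 = c.2
    · obtain ⟨N, hN, hNinj⟩ := eventually_injOn_of_strict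
        ((hE.smm.contDiffAt (x := p)).hasStrictFDerivAt (by simp)) hip
      have hO : N ×ˢ N ∈ 𝓝 c := by
        rw [show c = (c.1, c.2) from rfl, ← hcc, hcp]
        exact prod_mem_nhds hN hN
      obtain ⟨e, heO, heD⟩ := mem_closure_iff_nhds.mp hc _ hO
      exact Pool.Agent.Lib_MP_752436_ts.Over.ne heD (hNinj heO.1 heO.2 heD.2.2.1)
    · have hlt : z c.2 < z c.1 := lt_of_le_of_ne c5 fun h5 =>
        hcc (hE.inj c.1 c1 c.2 c2 c4 h5.symm)
      have hcr : (c.1, c.2) ∈ Over m z (closedBall (0 : Plane) 1) := ⟨c1, c2, c4, hlt⟩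
      rw [hcp] at hcr
      exact hPu p hp _ hcr
  obtain ⟨R, hR, hRW⟩ := exists_radius_of_finset P hWo hPW
  obtain ⟨δ, hδ, hsep⟩ := Pool.Agent.Lib_MP_752436_mv.exists_separation P
  refine ⟨min R (δ / 3), lt_min hR (by linarith), ?_, ?_⟩
  · intro p hp x hx
    have hxW := hRW p hp (closedBall_subset_closedBall (min_le_left _ _) hx)
    exact ⟨hxW.1, hxW.2.1, fun y hy => hxW.2.2 ⟨(x, y), subset_closure hy, rfl⟩⟩
  · intro p hp q hq hpq
    have h2 := hsep p hp q hq hpq
    have h3 := min_le_right R (δ / 3)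
    linarith

/-- If finitely many points, which are neither upper points nor singular points, meet all traps
above a low level, their number bounds the births. -/
theorem births_of_pierced {m : Plane → Space} {z : Plane → ℝ} (hE : Emb m z) (hg : Gen m)
    (hz0 : ∀ x ∈ sphere (0 : Plane) 1, z x = 0) (hz1 : ∀ x ∈ ball (0 : Plane) 1, 0 < z x) {s : ℝ}
    (hs : 0 < s) (hreg : ∀ x ∈ closedBall (0 : Plane) 1, z x ≤ s → fderiv ℝ z x ≠ 0)
    (P : Finset Plane) (hPb : ∀ p ∈ P, p ∈ ball (0 : Plane) 1) (hPz : ∀ p ∈ P, s < z p)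
    (hPi : ∀ p ∈ P, Function.Injective (fderiv ℝ m p))
    (hPu : ∀ p ∈ P, ∀ y, (p, y) ∉ Over m z (closedBall (0 : Plane) 1))
    (hno : ∀ Z, IsLTrap m z {x | x ∈ closedBall (0 : Plane) 1 ∧ s ≤ z x} Z →
      ¬ Disjoint Z (P : Set Plane)) :
    ∃ G, MorseDisc G ∧ (births G).encard ≤ P.card ∧ IsotopicRel (liftDisc m z) G := by
  classical
  have hzs : ContDiff ℝ ∞ z := hE.smz
  set R : Set Plane := {x | x ∈ closedBall (0 : Plane) 1 ∧ s ≤ z x} with hRdef
  have hRc : IsCompact R := (isCompact_closedBall (0 : Plane) 1).inter_right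
    (isClosed_le continuous_const hzs.continuous)
  have hRb : R ⊆ ball (0 : Plane) 1 := by
    intro x hx
    rcases lt_or_eq_of_le (mem_closedBall.1 hx.1) with h | h
    · exact mem_ball.2 h
    · have h1 := hz0 x (mem_sphere.2 h)
      have h2 : s ≤ z x := hx.2
      rw [h1] at h2
      exact absurd h2 (not_le.2 hs)
  have hregz : ∀ x ∈ closedBall (0 : Plane) 1, z x = s → fderiv ℝ z x ≠ 0 :=
    fun x hx h => hreg x hx h.le
  -- the strip
  obtain ⟨d1, hd1, c₁, hc₁, hstrip⟩ := exists_strip hzs hregz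
  obtain ⟨d₀, hd₀, hd₀1, hd₀P⟩ : ∃ d₀ > 0, d₀ ≤ d1 ∧ ∀ p ∈ P, s + d₀ < z p := by
    rcases P.eq_empty_or_nonempty with he | hne
    · exact ⟨d1, hd1, le_rfl, fun p hp => by rw [he] at hp; exact absurd hp (Finset.notMem_empty _)⟩
    · obtain ⟨e, he, hmin⟩ := P.exists_min_image (fun p => z p) hne
      have h1 := hPz e he
      refine ⟨min d1 ((z e - s) / 2), lt_min hd1 (by linarith), min_le_left _ _, ?_⟩
      intro p hp
      have h2 := hmin p hp
      have h4 := min_le_right d1 ((z e - s) / 2)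
      linarith
  -- the balls
  have hUo : IsOpen (ball (0 : Plane) 1 ∩ {x | s + d₀ < z x}) :=
    isOpen_ball.inter (isOpen_lt continuous_const hzs.continuous)
  obtain ⟨r, hr, hball, hsep⟩ := exists_freeRadius hE P hPi hPu hUo
    (fun p hp => ⟨hPb p hp, hd₀P p hp⟩)
  set ε : ℝ := r / 2 with hε
  have hε0 : 0 < ε := by positivity
  have hεR : ε < r := by rw [hε]; linarith
  -- the compact set
  set K : Set Plane := {x | x ∈ R ∧ ∀ p ∈ P, ε ≤ dist x p} with hK
  have hKc : IsCompact K := by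
    have h5 : K = R ∩ ⋂ p ∈ P, {x | ε ≤ dist x p} := by
      ext x
      simp only [hK, mem_inter_iff, Set.mem_ofPred_eq, mem_iInter]
    rw [h5]
    exact hRc.inter_right (isClosed_biInter fun p _ => isClosed_le continuous_const
      (continuous_id.dist continuous_const))
  obtain ⟨φ, hφ, hφr, hφl⟩ := exists_superharmonic_lift hE hg hKc
    (fun x hx => hRb hx.1) (by
      rintro ⟨Z, hZ⟩
      refine hno Z (hZ.mono fun x hx => hx.1) (Set.disjoint_left.2 fun x hx hxm => ?_)
      have h5 := (hZ.sub hx).2 x hxm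
      rw [dist_self] at h5
      linarith)
  -- the constants
  obtain ⟨μ, hμ, hμK⟩ : ∃ μ > 0, ∀ x ∈ K, lap φ x ≤ -μ := by
    rcases K.eq_empty_or_nonempty with he | hne
    · exact ⟨1, one_pos, fun x hx => by rw [he] at hx; exact absurd hx (notMem_empty x)⟩
    · obtain ⟨a, ha, hmax⟩ := hKc.exists_isMaxOn hne (continuous_lap hφ).continuousOn
      exact ⟨-lap φ a, by linarith [hφl a ha], fun x hx => by
        have h5 : lap φ x ≤ lap φ a := hmax hx
        linarith⟩
  obtain ⟨C0, hC0⟩ := (isCompact_closedBall (0 : Plane) 1).exists_bound_of_continuousOn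
    (continuous_lap hzs).continuousOn
  set A : ℝ := max C0 1 with hA
  have hApos : 0 < A := lt_of_lt_of_le one_pos (le_max_right _ _)
  have hAt : ∀ x ∈ closedBall (0 : Plane) 1, |lap z x| ≤ A := fun x hx =>
    (hC0 x hx).trans (le_max_left _ _)
  set M : ℝ := (A + 1) / μ with hM
  have hM0 : 0 ≤ M := by positivity
  have hMμ : M * μ = A + 1 := by
    rw [hM]; field_simp
  -- lowering
  set ψ : Plane → ℝ := fun x => z x + M * φ x with hψ
  have hψs : ContDiff ℝ ∞ ψ := hzs.add (contDiff_const.mul hφ)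
  obtain ⟨B, P', hBs, hB0, hBR, hBl, hP'c, hP'1, hP'2⟩ :=
    exists_lowering_local hε0 hεR hsep hψs
  set w0 : Plane → ℝ := fun x => M * φ x - B x with hw0
  have hw0s : ContDiff ℝ ∞ w0 := (contDiff_const.mul hφ).sub hBs
  obtain ⟨c0, hc0⟩ := (isCompact_closedBall (0 : Plane) 1).exists_bound_of_continuousOn
    (f := fun x => w0 x) hw0s.continuous.continuousOn
  set g : Plane → ℝ := fun x => w0 x + (c0 + 1) with hgd
  have hgs : ContDiff ℝ ∞ g := hw0s.add contDiff_const
  have hg1 : ∀ x ∈ closedBall (0 : Plane) 1, 0 ≤ g x := by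
    intro x hx
    have h5 := hc0 x hx
    rw [Real.norm_eq_abs, abs_le] at h5
    simp only [hgd]
    linarith [h5.1]
  -- `g` is rising
  have hBup : ∀ x ∈ closedBall (0 : Plane) 1, ∀ y ∈ closedBall (0 : Plane) 1,
      m x = m y → z y < z x → B x = 0 := by
    intro x hx y hy hm hlt
    apply hBR
    intro p hp
    by_contra hcon
    push Not at hcon
    obtain ⟨-, -, h6⟩ := hball p hp x (mem_closedBall.2 hcon.le)
    exact h6 y ⟨hx, hy, hm, hlt⟩
  have hBd : ∀ x, ∀ u, fderiv ℝ m x u = 0 → fderiv ℝ B x u = 0 := by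
    intro x u hu
    by_cases hx : ∃ p ∈ P, dist x p ≤ r
    · obtain ⟨p, hp, hxp⟩ := hx
      obtain ⟨-, hinj, -⟩ := hball p hp x (mem_closedBall.2 hxp)
      have h5 : u = 0 := hinj (hu.trans (map_zero _).symm)
      rw [h5, map_zero]
    · push Not at hx
      have h5 : ∀ᶠ y in 𝓝 x, B y = 0 := by
        have h6 : ∀ᶠ y in 𝓝 x, ∀ p ∈ P, r < dist y p := by
          rw [Filter.eventually_all_finset]
          intro p hp
          exact (continuous_id.dist continuous_const).continuousAt.eventually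
            (lt_mem_nhds (hx p hp))
        filter_upwards [h6] with y hy
        exact hBR y fun p hp => (hy p hp).le
      have h7 : B =ᶠ[𝓝 x] fun _ => 0 := h5
      rw [h7.fderiv_eq]
      simp
  have hgr : Pool.Agent.Lib_MP_752436_ts.Rising m z g := by
    refine ⟨?_, ?_⟩
    · intro x hx y hy hm hlt
      have h5 := hφr.cross x hx y hy hm hlt
      have h6 := hBup x hx y hy hm hlt
      have h7 := hB0 y
      have h8 := mul_le_mul_of_nonneg_left h5 hM0
      simp only [hgd, hw0]
      linarith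
    · intro x hx u hu hzu
      have h5 := hφr.cap x hx u hu hzu
      have h6 := hBd x u hu
      have e1 : HasFDerivAt φ (fderiv ℝ φ x) x := ((hφ.differentiable (by simp)) x).hasFDerivAt
      have e2 : HasFDerivAt B (fderiv ℝ B x) x := ((hBs.differentiable (by simp)) x).hasFDerivAt
      have e3 : HasFDerivAt g (M • fderiv ℝ φ x - fderiv ℝ B x) x :=
        ((e1.const_mul M).sub e2).add_const _
      rw [e3.fderiv]
      simp only [sub_apply, smul_apply, smul_eq_mul, h6, sub_zero]
      exact mul_nonneg hM0 h5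
  -- the cut off function
  obtain ⟨d, hd, hdd₀, χ, hχs, hχ0, hχ1, hχn, hχle, hχpos, hχm, hχi⟩ := exists_chi hApos hc₁ hd₀
  have hχmono : Monotone χ := by
    refine monotone_of_deriv_nonneg (hχs.differentiable (by simp)) hχm
  set T : Plane → ℝ := fun y => z y + χ (z y - s) * g y with hT
  have hTs : ContDiff ℝ ∞ T := hzs.add ((hχs.comp (hzs.sub contDiff_const)).mul hgs)
  have hrise1 : ∀ x ∈ closedBall (0 : Plane) 1, ∀ y ∈ closedBall (0 : Plane) 1,
      m x = m y → z y < z x → T y < T x := by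
    intro x hx y hy hm hlt
    have h5 := hgr.cross x hx y hy hm hlt
    have h6 : χ (z y - s) ≤ χ (z x - s) := hχmono (by linarith)
    have h7 := hg1 x hx
    have h8 : χ (z y - s) * g y ≤ χ (z y - s) * g x :=
      mul_le_mul_of_nonneg_left h5 (hχn _)
    have h9 : χ (z y - s) * g x ≤ χ (z x - s) * g x :=
      mul_le_mul_of_nonneg_right h6 h7
    simp only [hT]
    linarith
  have hrise2 : ∀ x ∈ closedBall (0 : Plane) 1, ∀ u, fderiv ℝ m x u = 0 →
      0 < fderiv ℝ z x u → 0 < fderiv ℝ T x u := by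
    intro x hx u hu hzu
    have h5 := hgr.cap x hx u hu hzu.le
    have e1 : HasFDerivAt z (fderiv ℝ z x) x := ((hzs.differentiable (by simp)) x).hasFDerivAt
    have e2 : HasFDerivAt g (fderiv ℝ g x) x := ((hgs.differentiable (by simp)) x).hasFDerivAt
    have e3 : HasDerivAt χ (deriv χ (z x - s)) (z x - s) :=
      ((hχs.differentiable (by simp)) _).hasDerivAt
    have e4 : HasFDerivAt (fun y => χ (z y - s)) (deriv χ (z x - s) • fderiv ℝ z x) x :=
      e3.comp_hasFDerivAt x (e1.sub_const s)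
    have e5 : HasFDerivAt T (fderiv ℝ z x + (χ (z x - s) • fderiv ℝ g x +
        g x • (deriv χ (z x - s) • fderiv ℝ z x))) x := e1.add (e4.mul e2)
    rw [e5.fderiv]
    simp only [add_apply, smul_apply, smul_eq_mul]
    have h6 := mul_nonneg (hχn (z x - s)) h5
    have h7 := mul_nonneg (hg1 x hx) (mul_nonneg (hχm (z x - s)) hzu.le)
    linarith
  have hET : Emb m T := hE.of_rising hTs hrise1 hrise2
  have hTlow : ∀ x, z x ≤ s → T x = z x := by
    intro x hx
    simp only [hT]
    rw [hχ0 _ (by linarith)]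
    ring
  have hTs0 : ∀ x ∈ sphere (0 : Plane) 1, T x = 0 := by
    intro x hx
    rw [hTlow x (by rw [hz0 x hx]; exact hs.le), hz0 x hx]
  have hTb : ∀ x ∈ ball (0 : Plane) 1, 0 < T x := by
    intro x hx
    have h1 := hz1 x hx
    have h3 := mul_nonneg (hχn (z x - s)) (hg1 x (ball_subset_closedBall hx))
    simp only [hT]
    linarith
  have hF1 : IsSliceDisc (liftDisc m T) := isSliceDisc_liftDisc hET hTs0 hTb
  -- the form near the small balls
  have hnear : ∀ x, s + d < z x → T =ᶠ[𝓝 x] fun y => (ψ y - B y) + (c0 + 1) := by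
    intro x hx
    filter_upwards [hzs.continuous.continuousAt.eventually (lt_mem_nhds hx)] with y hy
    simp only [hT, hgd, hψ, hw0]
    rw [hχ1 _ (by linarith)]
    ring
  have hψB : ContDiff ℝ ∞ fun y => ψ y - B y := hψs.sub hBs
  have hfd : ∀ x, s + d < z x → fderiv ℝ T x = fderiv ℝ (fun y => ψ y - B y) x := by
    intro x hx
    rw [(hnear x hx).fderiv_eq, fderiv_add_const]
  have hfdd : ∀ x, s + d < z x →
      fderiv ℝ (fderiv ℝ T) x = fderiv ℝ (fderiv ℝ (fun y => ψ y - B y)) x := by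
    intro x hx
    rw [((hnear x hx).fderiv).fderiv_eq]
    congr 1
    funext y
    rw [fderiv_add_const]
  have hballt : ∀ x, (∃ p ∈ P, dist x p ≤ ε) → x ∈ ball (0 : Plane) 1 ∧ s + d < z x := by
    rintro x ⟨p, hp, hxp⟩
    obtain ⟨h5, -, -⟩ := hball p hp x (mem_closedBall.2 (hxp.trans hεR.le))
    have h6 : s + d₀ < z x := h5.2
    exact ⟨h5.1, by linarith⟩
  -- the Laplacian of `g`
  have hlapg : ∀ x ∈ closedBall (0 : Plane) 1, s ≤ z x → (∀ p ∈ P, ε ≤ dist x p) →
      lap g x ≤ -(A + 1) := by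
    intro x hx hsx hxp
    have hxK : x ∈ K := ⟨⟨hx, hsx⟩, hxp⟩
    have hgeq : g = (M • φ + (-1 : ℝ) • B) + fun _ => c0 + 1 := by
      funext y
      simp only [hgd, hw0, Pi.add_apply, Pi.smul_apply, smul_eq_mul]
      ring
    have e1 : ContDiff ℝ ∞ (M • φ) := contDiff_const.smul hφ
    have e2 : ContDiff ℝ ∞ ((-1 : ℝ) • B) := contDiff_const.smul hBs
    have e5 : lap g x = M * lap φ x + -1 * lap B x := by
      have e6 : lap g x = lap (M • φ + (-1 : ℝ) • B) x := by
        rw [hgeq]
        unfold lap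
        have e7 : fderiv ℝ ((M • φ + (-1 : ℝ) • B) + fun _ => c0 + 1) =
            fderiv ℝ (M • φ + (-1 : ℝ) • B) := by
          funext y
          exact fderiv_add_const (c0 + 1)
        rw [e7]
      rw [e6, lap_add e1 e2, lap_smul _ hφ, lap_smul _ hBs]
      rfl
    rw [e5]
    have h5 := hμK x hxK
    have h7 := hBl x hxp
    have h8 := mul_le_mul_of_nonneg_left h5 hM0
    have h10 : M * -μ = -(A + 1) := by rw [mul_neg, hMμ]
    linarith
  obtain ⟨G, hG, hGn, hGF, hGi⟩ := births_of_height hF1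
    (ψ := fun q : EuclideanSpace ℝ (Fin 4) => q 3)
    (EuclideanSpace.proj (3 : Fin 4) : EuclideanSpace ℝ (Fin 4) →L[ℝ] ℝ).contDiff
    fderiv_three_nonneg_dm P'
    (by
      intro p hp
      have hTT : (fun y => liftDisc m T y 3) = T := rfl
      rw [hTT]
      obtain ⟨h6, h7⟩ := hP'1 p hp
      obtain ⟨h8, h9⟩ := hballt p h6
      refine ⟨h8, ?_⟩
      rw [hfdd p h9]
      exact h7)
    (by
      intro x hx h0
      have hTT : (fun y => liftDisc m T y 3) = T := rfl
      rw [hTT] at h0 ⊢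
      rcases le_or_gt (z x) s with h5 | h5
      · obtain ⟨h6, h7⟩ := hybrid_below hzs hgs hχs hχ0 (s := s) (x := x) h5
        exfalso
        refine hreg x hx h5 ?_
        rw [← h6]
        exact h0
      · by_cases hxp : ∃ p ∈ P, dist x p ≤ ε
        · right
          obtain ⟨h6, h7⟩ := hballt x hxp
          rw [hfd x h7] at h0
          exact hP'2 x hxp h0
        · left
          push Not at hxp
          apply neg_direction_of_lap_dm
          exact hybrid_lap_neg hzs hgs hχs hc₁ hχn hχ1 hχle hχpos hχm hχi h5 (hAt x hx)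
            (fun h6 => hstrip x hx h5.le (by linarith))
            (hg1 x hx)
            (hlapg x hx h5.le fun p hp => (hxp p hp).le) h0)
  refine ⟨G, hG, hGn.trans (by exact_mod_cast hP'c), ?_⟩
  refine IsotopicRel.trans (LineStep.isotopic (lineStep_height hE hTs ?_ ?_ hz0 hTs0 hz1 hTb))
    (LineStep.isotopic ⟨?_, hGi⟩)
  · exact hrise1
  · exact hrise2
  · intro x hx
    have h0 := hF1.boundary x hx
    have h1 := hG.slice.boundary x hx
    ext i
    by_cases hi : i = 3
    · rw [hi, h0, h1]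
    · exact hGF x i hi

end Pool.Agent.Lib_MP_752436_dm
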