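import Pool.Agent.Lib_MP_752436_gt.Shear
import Pool.Agent.Lib_MP_752436_gt.KLocal
import Pool.Agent.Lib_MP_752436_gt.UniqueCrit
import Pool.Agent.Lib_MP_752436_gt.NegDirOn
import Pool.Agent.Lib_MP_752436_mv.Crit

/-!
Local minima of linear functions on slice discs: the points where a linear function has a positive
semidefinite Hessian are stable under small changes of the linear function.
-/

open MeasureTheory Metric Set Filter
open scoped ContDiff Topology

namespace Pool.Agent.Lib_MP_752436_dm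

open Pool.Agent.Lib_MP_752436_gt Pool.Agent.Lib_MP_752436_tp Pool.Agent.Lib_MP_752436_mv

variable {F : Plane → EuclideanSpace ℝ (Fin 4)}

/-- The interior points of the disc at which the linear function `⟨v, F⟩` has a local minimum. -/
def localMinima (F : Plane → EuclideanSpace ℝ (Fin 4)) (v : EuclideanSpace ℝ (Fin 4)) :
    Set Plane :=
  {x | x ∈ ball (0 : Plane) 1 ∧ IsLocalMin (fun y => (inner ℝ v (F y) : ℝ)) x}

/-- The interior local maxima of the height. -/
def deaths (F : Plane → EuclideanSpace ℝ (Fin 4)) : Set Plane :=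
  {x | x ∈ ball (0 : Plane) 1 ∧ IsLocalMax (height F) x}

theorem contDiff_lin (hF : ContDiff ℝ ∞ F) (v : EuclideanSpace ℝ (Fin 4)) :
    ContDiff ℝ ∞ fun y => (inner ℝ v (F y) : ℝ) := contDiff_const.inner ℝ hF

theorem lin_fderiv_apply (hF : ContDiff ℝ ∞ F) (v : EuclideanSpace ℝ (Fin 4)) (x u : Plane) :
    fderiv ℝ (fun y => (inner ℝ v (F y) : ℝ)) x u = inner ℝ v (fderiv ℝ F x u) := by
  rw [kl_fderiv hF]
  rfl

theorem mem_badSet_singleton {v : EuclideanSpace ℝ (Fin 4)} {x : Plane} :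
    v ∈ badSet F {x} ↔ (∀ u, (inner ℝ v (fderiv ℝ F x u) : ℝ) = 0) ∧
      ∀ u, 0 ≤ (inner ℝ v (fderiv ℝ (fderiv ℝ F) x u u) : ℝ) := by
  constructor
  · rintro ⟨y, hy, h⟩
    rw [mem_singleton_iff] at hy
    subst hy
    exact h
  · intro h
    exact ⟨x, mem_singleton x, h⟩

/-- An interior local minimum is a point with positive semidefinite Hessian. -/
theorem bad_of_localMin (hF : ContDiff ℝ ∞ F) {v : EuclideanSpace ℝ (Fin 4)} {x : Plane}
    (h : IsLocalMin (fun y => (inner ℝ v (F y) : ℝ)) x) : v ∈ badSet F {x} := by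
  rw [mem_badSet_singleton]
  constructor
  · intro u
    rw [← lin_fderiv_apply hF, h.fderiv_eq_zero]
    rfl
  · intro u
    rw [← kl_fderiv_two hF]
    exact noTrap_second (contDiff_lin hF v) h u

/-- A critical point with positive definite Hessian is a local minimum. -/
theorem localMin_of_bad (hF : ContDiff ℝ ∞ F) {v : EuclideanSpace ℝ (Fin 4)} {x : Plane}
    (h : v ∈ badSet F {x})
    (hpos : ∀ u, u ≠ 0 → 0 < (inner ℝ v (fderiv ℝ (fderiv ℝ F) x u u) : ℝ)) :
    IsLocalMin (fun y => (inner ℝ v (F y) : ℝ)) x := by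
  rw [mem_badSet_singleton] at h
  refine crit_localMin (contDiff_lin hF v) ?_ ?_ ?_
  · ext u
    rw [lin_fderiv_apply hF, h.1 u]
    rfl
  · intro u hu
    refine ⟨u, ?_⟩
    rw [kl_fderiv_two hF]
    exact (hpos u hu).ne'
  · intro u
    rw [kl_fderiv_two hF]
    exact h.2 u

/-- A function with positive definite Hessian on a ball has at most one critical point there. -/
theorem unique_crit_convex {h : Plane → ℝ} (hh : ContDiff ℝ ∞ h) {p : Plane} {r : ℝ}
    (hpos : ∀ x ∈ closedBall p r, ∀ u, u ≠ 0 → 0 < fderiv ℝ (fderiv ℝ h) x u u) {x y : Plane}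
    (hx : x ∈ closedBall p r) (hy : y ∈ closedBall p r) (hx0 : fderiv ℝ h x = 0)
    (hy0 : fderiv ℝ h y = 0) : x = y := by
  by_contra hne
  have hc1 : ContDiff ℝ ∞ (fderiv ℝ h) := hh.fderiv_right (by simp)
  set u : Plane := y - x with hu
  have hu0 : u ≠ 0 := sub_ne_zero.2 (Ne.symm hne)
  set g : ℝ → ℝ := fun s => fderiv ℝ h (x + s • u) u with hg
  have hline : ∀ s : ℝ, HasDerivAt (fun s : ℝ => x + s • u) u s := by
    intro s
    have h1 : HasDerivAt (fun s : ℝ => s • u) ((1 : ℝ) • u) s := (hasDerivAt_id s).smul_const u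
    rw [one_smul] at h1
    exact h1.const_add x
  have hgd : ∀ s, HasDerivAt g (fderiv ℝ (fderiv ℝ h) (x + s • u) u u) s := by
    intro s
    have h1 : HasFDerivAt (fderiv ℝ h) (fderiv ℝ (fderiv ℝ h) (x + s • u)) (x + s • u) :=
      ((hc1.differentiable (by simp)) _).hasFDerivAt
    have h2 := h1.comp_hasDerivAt s (hline s)
    have h3 := h2.clm_apply (hasDerivAt_const s u)
    simpa using h3
  have hseg : ∀ s ∈ Icc (0 : ℝ) 1, x + s • u ∈ closedBall p r := by
    intro s hs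
    have h1 := (convex_closedBall p r).add_smul_sub_mem hx hy hs
    exact h1
  have hmono : StrictMonoOn g (Icc (0 : ℝ) 1) := by
    refine strictMonoOn_of_deriv_pos (convex_Icc 0 1) ?_ ?_
    · exact (continuous_iff_continuousAt.2 fun s => (hgd s).continuousAt).continuousOn
    · intro s hs
      rw [interior_Icc] at hs
      rw [(hgd s).deriv]
      exact hpos _ (hseg s ⟨hs.1.le, hs.2.le⟩) u hu0
  have h01 := hmono (left_mem_Icc.2 zero_le_one) (right_mem_Icc.2 zero_le_one) one_pos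
  have e0 : g 0 = 0 := by
    simp only [hg, zero_smul, add_zero, hx0]
    rfl
  have e1 : g 1 = 0 := by
    simp only [hg, one_smul, hu, add_sub_cancel, hy0]
    rfl
  rw [e0, e1] at h01
  exact lt_irrefl _ h01

/-- Stability of the points with positive semidefinite Hessian. -/
theorem bad_stable (hF : IsSliceDisc F) {v₀ : EuclideanSpace ℝ (Fin 4)} (P : Finset Plane)
    (hP : ∀ p ∈ P, p ∈ ball (0 : Plane) 1 ∧
      ∀ u, u ≠ 0 → 0 < (inner ℝ v₀ (fderiv ℝ (fderiv ℝ F) p u u) : ℝ))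
    (hcrit : ∀ x ∈ closedBall (0 : Plane) 1, v₀ ∈ badSet F {x} → x ∈ P) :
    ∃ δ > 0, ∀ v, ‖v - v₀‖ < δ →
      {x | x ∈ closedBall (0 : Plane) 1 ∧ v ∈ badSet F {x}}.encard ≤ P.card ∧
      ∀ x ∈ closedBall (0 : Plane) 1, v ∈ badSet F {x} → x ∈ ball (0 : Plane) 1 ∧
        ∀ u, u ≠ 0 → 0 < (inner ℝ v (fderiv ℝ (fderiv ℝ F) x u u) : ℝ) := by
  classical
  have hs := hF.smooth
  have h1s : ContDiff ℝ ∞ (fderiv ℝ F) := hs.fderiv_right (by simp)
  have h2s : ContDiff ℝ ∞ (fderiv ℝ (fderiv ℝ F)) := h1s.fderiv_right (by simp)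
  set φ : Plane → ℝ := fun y => (inner ℝ v₀ (F y) : ℝ) with hφ
  have hφs : ContDiff ℝ ∞ φ := contDiff_lin hs v₀
  -- balls
  have hball : ∀ p ∈ P, ∃ r m : ℝ, 0 < r ∧ 0 < m ∧ closedBall p r ⊆ ball (0 : Plane) 1 ∧
      ∀ x ∈ closedBall p r, ∀ u, m * ‖u‖ ^ 2 ≤ fderiv ℝ (fderiv ℝ φ) x u u := by
    intro p hp
    obtain ⟨hp1, hp2⟩ := hP p hp
    obtain ⟨r, m, hr, -, hm, hsub, hconv⟩ := exists_convex_ball hφs hp1 (fun u hu => by
      rw [hφ, kl_fderiv_two hs]
      exact hp2 u hu) (δ := 1) one_pos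
    exact ⟨r, m, hr, hm, hsub, hconv⟩
  choose! r m hr hm hsub hconv using hball
  set K : Set Plane := closedBall (0 : Plane) 1 \ ⋃ p ∈ P, ball p (r p) with hK
  have hKc : IsCompact K := (isCompact_closedBall (0 : Plane) 1).diff
    (isOpen_biUnion fun p _ => isOpen_ball)
  obtain ⟨η, hη, hKη⟩ := negDir_uniform_on hKc hφs (by
    intro x hx h0
    by_contra hcon
    push Not at hcon
    have h3 : x ∈ P := by
      refine hcrit x hx.1 ?_
      rw [mem_badSet_singleton]
      refine ⟨fun u => ?_, fun u => ?_⟩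
      · rw [← lin_fderiv_apply hs]
        change fderiv ℝ φ x u = 0
        rw [h0]
        rfl
      · rw [← kl_fderiv_two hs]
        exact hcon u
    exact hx.2 (mem_biUnion h3 (mem_ball_self (hr x h3))))
  obtain ⟨C1, hC1, hC1b⟩ := exists_bound_unitDisc h1s.continuous
  obtain ⟨C2, hC2, hC2b⟩ := exists_bound_unitDisc h2s.continuous
  have hm0 : ∃ μ > 0, ∀ p ∈ P, μ ≤ m p := by
    rcases P.eq_empty_or_nonempty with he | hne
    · exact ⟨1, one_pos, fun p hp => by rw [he] at hp; exact absurd hp (Finset.notMem_empty _)⟩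
    · obtain ⟨q, hq, hmin⟩ := P.exists_min_image m hne
      exact ⟨m q, hm q hq, hmin⟩
  obtain ⟨μ, hμ, hμm⟩ := hm0
  set δ : ℝ := min η μ / (2 * (C1 + C2 + 1)) with hδ
  have hmin : 0 < min η μ := lt_min hη hμ
  have hden : 0 < 2 * (C1 + C2 + 1) := by linarith
  have hδ0 : 0 < δ := div_pos hmin hden
  have hδC : δ * (C1 + C2 + 1) = min η μ / 2 := by
    rw [hδ]
    field_simp
  have hδC1 : δ * C1 ≤ min η μ / 2 := by nlinarith
  have hδC2 : δ * C2 ≤ min η μ / 2 := by nlinarith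
  refine ⟨δ, hδ0, fun v hv => ?_⟩
  -- differences
  have hdiff2 : ∀ x ∈ closedBall (0 : Plane) 1, ∀ u,
      |(inner ℝ v (fderiv ℝ (fderiv ℝ F) x u u) : ℝ) - fderiv ℝ (fderiv ℝ φ) x u u| ≤
        min η μ / 2 * ‖u‖ ^ 2 := by
    intro x hx u
    rw [hφ, kl_fderiv_two hs, ← inner_sub_left]
    have e1 : ‖fderiv ℝ (fderiv ℝ F) x u u‖ ≤ C2 * ‖u‖ ^ 2 := by
      calc ‖fderiv ℝ (fderiv ℝ F) x u u‖ ≤ ‖fderiv ℝ (fderiv ℝ F) x u‖ * ‖u‖ :=
            ContinuousLinearMap.le_opNorm _ _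
        _ ≤ ‖fderiv ℝ (fderiv ℝ F) x‖ * ‖u‖ * ‖u‖ := by
            gcongr
            exact ContinuousLinearMap.le_opNorm _ _
        _ ≤ C2 * ‖u‖ * ‖u‖ := by
            gcongr
            exact hC2b x hx
        _ = C2 * ‖u‖ ^ 2 := by ring
    calc |(inner ℝ (v - v₀) (fderiv ℝ (fderiv ℝ F) x u u) : ℝ)|
        ≤ ‖v - v₀‖ * ‖fderiv ℝ (fderiv ℝ F) x u u‖ := abs_real_inner_le_norm _ _
      _ ≤ δ * (C2 * ‖u‖ ^ 2) := by
          gcongr
      _ = δ * C2 * ‖u‖ ^ 2 := by ring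
      _ ≤ min η μ / 2 * ‖u‖ ^ 2 := by gcongr
  have hdiff1 : ∀ x ∈ closedBall (0 : Plane) 1,
      (∀ u, (inner ℝ v (fderiv ℝ F x u) : ℝ) = 0) → ‖fderiv ℝ φ x‖ ≤ η := by
    intro x hx h0
    refine ContinuousLinearMap.opNorm_le_bound _ hη.le fun u => ?_
    rw [hφ, lin_fderiv_apply hs, Real.norm_eq_abs]
    have e0 : (inner ℝ v₀ (fderiv ℝ F x u) : ℝ) = inner ℝ (v₀ - v) (fderiv ℝ F x u) := by
      rw [inner_sub_left, h0 u, sub_zero]
    rw [e0]
    have e1 : ‖fderiv ℝ F x u‖ ≤ C1 * ‖u‖ :=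
      (ContinuousLinearMap.le_opNorm _ _).trans (by gcongr; exact hC1b x hx)
    calc |(inner ℝ (v₀ - v) (fderiv ℝ F x u) : ℝ)| ≤ ‖v₀ - v‖ * ‖fderiv ℝ F x u‖ :=
          abs_real_inner_le_norm _ _
      _ ≤ δ * (C1 * ‖u‖) := by
          rw [norm_sub_rev]
          gcongr
      _ = δ * C1 * ‖u‖ := by ring
      _ ≤ η * ‖u‖ := by
          gcongr
          have := min_le_left η μ
          linarith
  -- bad points are in the balls
  have hin : ∀ x ∈ closedBall (0 : Plane) 1, v ∈ badSet F {x} → ∃ p ∈ P, x ∈ ball p (r p) := by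
    intro x hx hbad
    rw [mem_badSet_singleton] at hbad
    by_contra hcon
    push Not at hcon
    have hxK : x ∈ K := by
      refine ⟨hx, ?_⟩
      simp only [mem_iUnion, not_exists]
      exact fun p hp => hcon p hp
    obtain ⟨u, hu, hneg⟩ := hKη x hxK (hdiff1 x hx hbad.1)
    have e1 := abs_le.1 (hdiff2 x hx u)
    have e2 := hbad.2 u
    rw [hu] at e1
    have e3 := min_le_left η μ
    linarith [e1.2]
  have hposB : ∀ p ∈ P, ∀ x ∈ closedBall p (r p), ∀ u, u ≠ 0 →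
      0 < (inner ℝ v (fderiv ℝ (fderiv ℝ F) x u u) : ℝ) := by
    intro p hp x hx u hu
    have hx1 : x ∈ closedBall (0 : Plane) 1 := ball_subset_closedBall (hsub p hp hx)
    have e1 := abs_le.1 (hdiff2 x hx1 u)
    have e2 := hconv p hp x hx u
    have e3 := min_le_right η μ
    have e4 := hμm p hp
    have e5 : 0 < ‖u‖ ^ 2 := by positivity
    nlinarith [e1.1]
  constructor
  · -- the number of bad points
    have hchoose : ∀ x : Plane, ∃ p : Plane, x ∈ closedBall (0 : Plane) 1 ∧ v ∈ badSet F {x} →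
        p ∈ P ∧ x ∈ ball p (r p) := by
      intro x
      by_cases h : x ∈ closedBall (0 : Plane) 1 ∧ v ∈ badSet F {x}
      · obtain ⟨p, hp, hxp⟩ := hin x h.1 h.2
        exact ⟨p, fun _ => ⟨hp, hxp⟩⟩
      · exact ⟨0, fun h' => absurd h' h⟩
    choose q hq using hchoose
    have hinj : InjOn q {x | x ∈ closedBall (0 : Plane) 1 ∧ v ∈ badSet F {x}} := by
      intro x hx y hy hxy
      obtain ⟨hp, hxp⟩ := hq x hx
      obtain ⟨hp', hyp⟩ := hq y hy
      rw [← hxy] at hyp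
      have hcr : ∀ z, v ∈ badSet F {z} → fderiv ℝ (fun y => (inner ℝ v (F y) : ℝ)) z = 0 := by
        intro z hz
        rw [mem_badSet_singleton] at hz
        ext u
        rw [lin_fderiv_apply hs, hz.1 u]
        rfl
      refine unique_crit_convex (contDiff_lin hs v) (p := q x) (r := r (q x)) ?_
        (ball_subset_closedBall hxp) (ball_subset_closedBall hyp) (hcr x hx.2) (hcr y hy.2)
      intro z hz u hu
      rw [kl_fderiv_two hs]
      exact hposB _ hp z hz u hu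
    have himg : q '' {x | x ∈ closedBall (0 : Plane) 1 ∧ v ∈ badSet F {x}} ⊆ (P : Set Plane) := by
      rintro _ ⟨x, hx, rfl⟩
      exact (hq x hx).1
    rw [← hinj.encard_image]
    refine (encard_le_encard himg).trans ?_
    rw [Set.encard_coe_eq_coe_finsetCard]
  · intro x hx hbad
    obtain ⟨p, hp, hxp⟩ := hin x hx hbad
    exact ⟨hsub p hp (ball_subset_closedBall hxp), hposB p hp x (ball_subset_closedBall hxp)⟩

end Pool.Agent.Lib_MP_752436_dm
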